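import Pool.Agent.K3H.Small

/-!
Covariants of quartics and the number of points of small height on the twists `D y^2 = F(t)` of a
separable quartic or cubic `F`.
-/

set_option autoImplicit false

namespace Pool.Agent.K3Q

open WeierstrassCurve WeierstrassCurve.Affine Height Polynomial Pool.Agent.K3H

section alg

variable {K : Type*} [Field K]

/-- quartic -/
def qe (a b c d e t : K) : K := a * t ^ 4 + b * t ^ 3 + c * t ^ 2 + d * t + e

/-- the invariant `I` -/
def iI (a b c d e : K) : K := 12 * a * e - 3 * b * d + c ^ 2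

/-- the invariant `J` -/
def iJ (a b c d e : K) : K :=
  72 * a * c * e + 9 * b * c * d - 27 * a * d ^ 2 - 27 * e * b ^ 2 - 2 * c ^ 3

/-- the covariant of degree 4 -/
def g4 (a b c d e t : K) : K :=
  (3 * b ^ 2 - 8 * a * c) * t ^ 4 + 4 * (b * c - 6 * a * d) * t ^ 3 +
    2 * (2 * c ^ 2 - 24 * a * e - 3 * b * d) * t ^ 2 + 4 * (c * d - 6 * b * e) * t +
    (3 * d ^ 2 - 8 * c * e)

/-- the covariant of degree 6 -/
def g6 (a b c d e t : K) : K :=
  (b ^ 3 + 8 * a ^ 2 * d - 4 * a * b * c) * t ^ 6 +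
    2 * (16 * a ^ 2 * e + 2 * a * b * d - 4 * a * c ^ 2 + b ^ 2 * c) * t ^ 5 +
    5 * (8 * a * b * e + b ^ 2 * d - 4 * a * c * d) * t ^ 4 +
    20 * (b ^ 2 * e - a * d ^ 2) * t ^ 3 -
    5 * (8 * a * d * e + b * d ^ 2 - 4 * b * c * e) * t ^ 2 -
    2 * (16 * a * e ^ 2 + 2 * b * d * e - 4 * c ^ 2 * e + c * d ^ 2) * t -
    (d ^ 3 + 8 * b * e ^ 2 - 4 * c * d * e)

lemma syz (a b c d e t : K) : 27 * g6 a b c d e t ^ 2 =
    g4 a b c d e t ^ 3 - 48 * iI a b c d e * g4 a b c d e t * qe a b c d e t ^ 2 -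
      64 * iJ a b c d e * qe a b c d e t ^ 3 := by
  simp only [g6, g4, iI, iJ, qe]
  ring

lemma g4_eq (a b c d e t : K) : g4 a b c d e t =
    3 * (4 * a * t ^ 3 + 3 * b * t ^ 2 + 2 * c * t + d) ^ 2 -
      4 * qe a b c d e t * (12 * a * t ^ 2 + 6 * b * t + 2 * c) := by
  simp only [g4, qe]
  ring

/-- the discriminant of a quartic in terms of the roots -/
lemma disc4 (a r s u v : K) :
    4 * iI a (-a * (r + s + u + v)) (a * (r * s + r * u + r * v + s * u + s * v + u * v))
        (-a * (r * s * u + r * s * v + r * u * v + s * u * v)) (a * (r * s * u * v)) ^ 3 -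
      iJ a (-a * (r + s + u + v)) (a * (r * s + r * u + r * v + s * u + s * v + u * v))
        (-a * (r * s * u + r * s * v + r * u * v + s * u * v)) (a * (r * s * u * v)) ^ 2 =
    27 * a ^ 6 * ((r - s) * (r - u) * (r - v) * (s - u) * (s - v) * (u - v)) ^ 2 := by
  simp only [iI, iJ]
  ring

/-- the discriminant of a cubic in terms of the roots -/
lemma disc3 (b r s u : K) :
    4 * iI 0 b (-b * (r + s + u)) (b * (r * s + r * u + s * u)) (-b * (r * s * u)) ^ 3 -
      iJ 0 b (-b * (r + s + u)) (b * (r * s + r * u + s * u)) (-b * (r * s * u)) ^ 2 =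
    27 * b ^ 6 * ((r - s) * (r - u) * (s - u)) ^ 2 := by
  simp only [iI, iJ]
  ring

end alg

end Pool.Agent.K3Q
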