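import Pool.Agent.K3Q.Cov

/-!
The invariants of a separable polynomial of degree 3 or 4 satisfy `4 I^3 ≠ J^2`.
-/

set_option autoImplicit false

namespace Pool.Agent.K3Q

open Polynomial

variable {K : Type*} [Field K]

/-- the invariant `I` of a polynomial of degree at most 4 -/
def pI (F : K[X]) : K := iI (F.coeff 4) (F.coeff 3) (F.coeff 2) (F.coeff 1) (F.coeff 0)

/-- the invariant `J` -/
def pJ (F : K[X]) : K := iJ (F.coeff 4) (F.coeff 3) (F.coeff 2) (F.coeff 1) (F.coeff 0)

lemma eval_qe (F : K[X]) (h : F.natDegree ≤ 4) (t : K) :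
    F.eval t = qe (F.coeff 4) (F.coeff 3) (F.coeff 2) (F.coeff 1) (F.coeff 0) t := by
  rw [Polynomial.eval_eq_sum_range' (n := 5) (by omega)]
  simp only [Finset.sum_range_succ, Finset.sum_range_zero, qe]
  ring

lemma coeffs (a b c d e : K) (F : K[X])
    (h : F = C a * X ^ 4 + C b * X ^ 3 + C c * X ^ 2 + C d * X + C e) :
    F.coeff 4 = a ∧ F.coeff 3 = b ∧ F.coeff 2 = c ∧ F.coeff 1 = d ∧ F.coeff 0 = e := by
  subst h
  refine ⟨?_, ?_, ?_, ?_, ?_⟩ <;> simp [coeff_X, coeff_C]

lemma disc_ne_closed [IsAlgClosed K] [CharZero K] (F : K[X]) (hF : F.Separable)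
    (hd : F.natDegree = 3 ∨ F.natDegree = 4) : 4 * pI F ^ 3 - pJ F ^ 2 ≠ 0 := by
  have hF0 : F ≠ 0 := hF.ne_zero
  have hlead : F.leadingCoeff ≠ 0 := leadingCoeff_ne_zero.mpr hF0
  have hsp : F.Splits := IsAlgClosed.splits F
  have hprod := hsp.eq_prod_roots
  have hcard : F.roots.card = F.natDegree := hsp.natDegree_eq_card_roots.symm
  have hnd : F.roots.Nodup := nodup_roots hF
  have h27 : (27 : K) ≠ 0 := by norm_num
  rcases hd with hd | hd
  · rw [hd] at hcard
    obtain ⟨r, s, u, hr⟩ := Multiset.card_eq_three.mp hcard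
    rw [hr] at hprod hnd
    set b := F.leadingCoeff with hb
    have hexp : F = C 0 * X ^ 4 + C b * X ^ 3 + C (-b * (r + s + u)) * X ^ 2 +
        C (b * (r * s + r * u + s * u)) * X + C (-b * (r * s * u)) := by
      conv_lhs => rw [hprod]
      simp only [Multiset.insert_eq_cons, Multiset.map_cons, Multiset.map_singleton,
        Multiset.prod_cons, Multiset.prod_singleton, C_mul, C_add, C_neg, C_0]
      ring
    obtain ⟨h4, h3, h2, h1, h0⟩ := coeffs _ _ _ _ _ F hexp
    rw [pI, pJ, h4, h3, h2, h1, h0, disc3]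
    simp only [Multiset.insert_eq_cons, Multiset.nodup_cons, Multiset.mem_cons,
      Multiset.mem_singleton, not_or, Multiset.nodup_singleton, and_true] at hnd
    obtain ⟨⟨h5, h6⟩, h7⟩ := hnd
    exact mul_ne_zero (mul_ne_zero h27 (pow_ne_zero _ hlead)) (pow_ne_zero _
      (mul_ne_zero (mul_ne_zero (sub_ne_zero.mpr h5) (sub_ne_zero.mpr h6))
        (sub_ne_zero.mpr h7)))
  · rw [hd] at hcard
    obtain ⟨r, hr'⟩ := Multiset.card_pos_iff_exists_mem.mp
      (show 0 < F.roots.card by rw [hcard]; norm_num)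
    obtain ⟨T, hr⟩ := Multiset.exists_cons_of_mem hr'
    have hT : T.card = 3 := by
      rw [hr, Multiset.card_cons] at hcard
      omega
    obtain ⟨s, u, v, hT'⟩ := Multiset.card_eq_three.mp hT
    rw [hr, hT'] at hprod hnd
    set a := F.leadingCoeff with ha
    have hexp : F = C a * X ^ 4 + C (-a * (r + s + u + v)) * X ^ 3 +
        C (a * (r * s + r * u + r * v + s * u + s * v + u * v)) * X ^ 2 +
        C (-a * (r * s * u + r * s * v + r * u * v + s * u * v)) * X +
        C (a * (r * s * u * v)) := by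
      conv_lhs => rw [hprod]
      simp only [Multiset.insert_eq_cons, Multiset.map_cons, Multiset.map_singleton,
        Multiset.prod_cons, Multiset.prod_singleton, C_mul, C_add, C_neg]
      ring
    obtain ⟨h4, h3, h2, h1, h0⟩ := coeffs _ _ _ _ _ F hexp
    rw [pI, pJ, h4, h3, h2, h1, h0, disc4]
    simp only [Multiset.insert_eq_cons, Multiset.nodup_cons, Multiset.mem_cons,
      Multiset.mem_singleton, not_or, Multiset.nodup_singleton, and_true] at hnd
    obtain ⟨⟨h5, h6, h7⟩, ⟨h8, h9⟩, h10⟩ := hnd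
    exact mul_ne_zero (mul_ne_zero h27 (pow_ne_zero _ hlead)) (pow_ne_zero _
      (mul_ne_zero (mul_ne_zero (mul_ne_zero (mul_ne_zero (mul_ne_zero (sub_ne_zero.mpr h5)
        (sub_ne_zero.mpr h6)) (sub_ne_zero.mpr h7)) (sub_ne_zero.mpr h8)) (sub_ne_zero.mpr h9))
        (sub_ne_zero.mpr h10)))

theorem disc_ne [CharZero K] (F : K[X]) (hF : F.Separable)
    (hd : F.natDegree = 3 ∨ F.natDegree = 4) : 4 * pI F ^ 3 - pJ F ^ 2 ≠ 0 := by
  let L := AlgebraicClosure K
  have : CharZero L := charZero_of_injective_algebraMap (algebraMap K L).injective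
  have h := disc_ne_closed (F.map (algebraMap K L)) (hF.map) (by rwa [natDegree_map])
  intro h0
  apply h
  have h1 : pI (F.map (algebraMap K L)) = algebraMap K L (pI F) := by
    simp only [pI, iI, coeff_map, map_add, map_sub, map_mul, map_pow, map_ofNat]
  have h2 : pJ (F.map (algebraMap K L)) = algebraMap K L (pJ F) := by
    simp only [pJ, iJ, coeff_map, map_add, map_sub, map_mul, map_pow, map_ofNat]
  rw [h1, h2]
  have := congrArg (algebraMap K L) h0
  simpa only [map_sub, map_mul, map_pow, map_ofNat, map_zero] using this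

end Pool.Agent.K3Q
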