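import Pool.Agent.K3Q.Main

/-!
Quartic surfaces `F(x, y) = G(z, w)` with binary quartic forms `F`, `G`.
-/

set_option autoImplicit false

namespace Pool.Agent.K3Q

open Height Polynomial Pool.Agent.K3H
open scoped LinearAlgebra.Projectivization

section alg

variable {K : Type*} [Field K]

/-- the binary quartic form with coefficients `q` -/
def form (q : Fin 5 → K) (x y : K) : K :=
  q 0 * x ^ 4 + q 1 * x ^ 3 * y + q 2 * x ^ 2 * y ^ 2 + q 3 * x * y ^ 3 + q 4 * y ^ 4

/-- `27` times the discriminant of the form -/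
def disc (q : Fin 5 → K) : K :=
  4 * (12 * q 0 * q 4 - 3 * q 1 * q 3 + q 2 ^ 2) ^ 3 -
    (72 * q 0 * q 2 * q 4 + 9 * q 1 * q 2 * q 3 - 27 * q 0 * q 3 ^ 2 - 27 * q 4 * q 1 ^ 2 -
      2 * q 2 ^ 3) ^ 2

/-- the form at `(t, 1)` as a polynomial -/
noncomputable def toP (q : Fin 5 → K) : K[X] :=
  C (q 0) * X ^ 4 + C (q 1) * X ^ 3 + C (q 2) * X ^ 2 + C (q 3) * X + C (q 4)

lemma eval_toP (q : Fin 5 → K) (t : K) : (toP q).eval t = form q t 1 := by
  simp [toP, form]

lemma toP_coeffs (q : Fin 5 → K) : (toP q).coeff 4 = q 0 ∧ (toP q).coeff 3 = q 1 ∧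
    (toP q).coeff 2 = q 2 ∧ (toP q).coeff 1 = q 3 ∧ (toP q).coeff 0 = q 4 :=
  coeffs _ _ _ _ _ _ rfl

lemma toP_natDegree_le (q : Fin 5 → K) : (toP q).natDegree ≤ 4 := by
  unfold toP
  compute_degree

lemma toP_natDegree (q : Fin 5 → K) (h : disc q ≠ 0) :
    (toP q).natDegree = 3 ∨ (toP q).natDegree = 4 := by
  obtain ⟨h4, h3, _⟩ := toP_coeffs q
  have hle := toP_natDegree_le q
  by_cases h0 : q 0 = 0
  · left
    have h1 : q 1 ≠ 0 := by
      intro h1
      apply h
      rw [disc, h0, h1]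
      ring
    apply le_antisymm
    · by_contra hc
      have h5 : (toP q).natDegree = 4 := by omega
      have h6 : (toP q).leadingCoeff = 0 := by rw [leadingCoeff, h5, h4, h0]
      rw [leadingCoeff_eq_zero] at h6
      rw [h6] at h5
      simp at h5
    · apply le_natDegree_of_ne_zero
      rw [h3]
      exact h1
  · right
    apply le_antisymm hle
    apply le_natDegree_of_ne_zero
    rw [h4]
    exact h0

lemma disc_double (q : Fin 5 → K) (r : K) (h0 : form q r 1 = 0)
    (h1 : 4 * q 0 * r ^ 3 + 3 * q 1 * r ^ 2 + 2 * q 2 * r + q 3 = 0) : disc q = 0 := by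
  have e3 : q 3 = -(4 * q 0 * r ^ 3 + 3 * q 1 * r ^ 2 + 2 * q 2 * r) := by
    linear_combination h1
  have e4 : q 4 = 3 * q 0 * r ^ 4 + 2 * q 1 * r ^ 3 + q 2 * r ^ 2 := by
    simp only [form] at h0
    rw [e3] at h0
    linear_combination h0
  rw [disc, e3, e4]
  ring

lemma toP_separable_closed [IsAlgClosed K] (q : Fin 5 → K) (h : disc q ≠ 0) :
    (toP q).Separable := by
  rw [Polynomial.Separable]
  refine (isCoprime_iff_aeval_ne_zero_of_isAlgClosed K K _ _).mpr (fun r => ?_)
  by_contra hc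
  push Not at hc
  obtain ⟨h0, h1⟩ := hc
  apply h
  apply disc_double q r
  · rw [← eval_toP]
    simpa [coe_aeval_eq_eval] using h0
  · have : (derivative (toP q)).eval r =
        4 * q 0 * r ^ 3 + 3 * q 1 * r ^ 2 + 2 * q 2 * r + q 3 := by
      simp [toP]
      ring
    rw [← this]
    simpa [coe_aeval_eq_eval] using h1

lemma toP_separable (q : Fin 5 → K) (h : disc q ≠ 0) : (toP q).Separable := by
  let L := AlgebraicClosure K
  have h1 : disc (fun i => algebraMap K L (q i)) ≠ 0 := by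
    have h2 : disc (fun i => algebraMap K L (q i)) = algebraMap K L (disc q) := by
      simp only [disc, map_sub, map_add, map_mul, map_pow, map_ofNat]
    rw [h2]
    exact (_root_.map_ne_zero _).mpr h
  have h3 := toP_separable_closed _ h1
  have h4 : toP (fun i => algebraMap K L (q i)) = (toP q).map (algebraMap K L) := by
    simp [toP, Polynomial.map_add, Polynomial.map_mul]
  rw [h4, separable_map] at h3
  exact h3

/-- point of the projective line -/
noncomputable def pr [DecidableEq K] (x y : K) : Option K := if y = 0 then none else some (x / y)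

/-- scale -/
def sc [DecidableEq K] (x y : K) : K := if y = 0 then x else y

/-- value of the form at the normalised vector -/
def vo (q : Fin 5 → K) : Option K → K
  | none => q 0
  | some t => form q t 1

lemma form_eq [DecidableEq K] (q : Fin 5 → K) (x y : K) :
    form q x y = vo q (pr x y) * sc x y ^ 4 := by
  by_cases hy : y = 0
  · simp [pr, sc, vo, hy, form]
  · simp only [pr, sc, vo, hy, if_false, form]
    field_simp

lemma sc_mul [DecidableEq K] {x y x' y' : K} (h : pr x y = pr x' y') (h' : sc x' y' ≠ 0) :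
    x = sc x y / sc x' y' * x' ∧ y = sc x y / sc x' y' * y' := by
  by_cases hy : y = 0
  · by_cases hy' : y' = 0
    · simp only [sc, hy, hy', if_true] at h' ⊢
      constructor
      · field_simp
      · ring
    · simp [pr, hy, hy'] at h
  · by_cases hy' : y' = 0
    · simp [pr, hy, hy'] at h
    · simp only [pr, hy, hy', if_false, Option.some.injEq] at h
      simp only [sc, hy, hy', if_false] at h' ⊢
      constructor
      · rw [div_eq_div_iff hy hy'] at h
        field_simp
        linear_combination h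
      · field_simp

end alg

section

variable {K : Type*} [Field K] [NumberField K] [DecidableEq K]

omit [NumberField K] [DecidableEq K] in
lemma card_option_le {s : Finset (Option K)} : s.card ≤ s.eraseNone.card + 1 := by
  classical
  have h : s ⊆ Finset.insertNone s.eraseNone := by
    intro o ho
    rw [Finset.mem_insertNone]
    intro x hx
    rw [Finset.mem_eraseNone]
    rw [Option.mem_def] at hx
    rwa [hx] at ho
  exact (Finset.card_le_card h).trans (Finset.card_insertNone _).le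

/-- points of small height on the twists of a quartic, with the points at infinity -/
theorem ocount (q : Fin 5 → K) (hq : disc q ≠ 0) (η : ℝ) (hη : 0 < η) :
    ∃ C' : ℝ, 0 ≤ C' ∧ ∀ D : K, D ≠ 0 → ∀ H : ℝ, 0 ≤ H → ∀ s : Finset (Option K),
      (∀ o ∈ s, (∃ l : K, l ≠ 0 ∧ D = vo q o * l ^ 2) ∧ oh o ≤ H) →
      (s.card : ℝ) ≤ C' * Real.exp (η * H) := by
  classical
  obtain ⟨C1, h1, hC1⟩ := xcount (toP q) (toP_separable q hq) (toP_natDegree q hq) η hη
  refine ⟨C1 + 1, by positivity, ?_⟩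
  intro D hD H hH s hs
  have h2 := hC1 D hD H hH s.eraseNone (by
    intro t ht
    rw [Finset.mem_eraseNone] at ht
    obtain ⟨h3, h4⟩ := hs _ ht
    refine ⟨?_, h4⟩
    rw [eval_toP]
    exact h3)
  have h3 : (s.card : ℝ) ≤ (s.eraseNone.card : ℝ) + 1 := by exact_mod_cast card_option_le
  have h4 : 1 ≤ Real.exp (η * H) := Real.one_le_exp (by positivity)
  nlinarith

omit [DecidableEq K] in
lemma oh_pr_le [DecidableEq K] (v : Fin 4 → K) (i j : Fin 4) :
    oh (pr (v i) (v j)) ≤ logHeight v := by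
  by_cases hj : v j = 0
  · simp only [pr, hj, if_true, oh]
    exact logHeight_nonneg v
  · simp only [pr, hj, if_false, oh]
    rw [logHeight₁_div_eq_logHeight]
    have := logHeight_comp_le ![i, j] v
    refine le_trans (le_of_eq ?_) this
    congr 1
    ext k
    fin_cases k <;> rfl

/-- the points of `F(x, y) = G(z, w)` over one square class -/
theorem forms_class (q r : Fin 5 → K) (hq : disc q ≠ 0) (hr : disc r ≠ 0) (η : ℝ) (hη : 0 < η) :
    ∃ Cη : ℝ, 0 ≤ Cη ∧ ∀ D : K, D ≠ 0 → ∀ H : ℝ, 0 ≤ H → ∀ s : Finset (ℙ K (Fin 4 → K)),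
      (∀ P ∈ s, form q (P.rep 0) (P.rep 1) = form r (P.rep 2) (P.rep 3) ∧
        (∃ l : K, l ≠ 0 ∧ D = form q (P.rep 0) (P.rep 1) * l ^ 2) ∧ logHeight P.rep ≤ H) →
      (s.card : ℝ) ≤ Cη * Real.exp (η * H) := by
  classical
  obtain ⟨C1, hC10, hC1⟩ := ocount q hq (η / 2) (by positivity)
  obtain ⟨C2, hC20, hC2⟩ := ocount r hr (η / 2) (by positivity)
  refine ⟨4 * (C1 * C2), by positivity, ?_⟩
  intro D hD H hH s hs
  let f1 : ℙ K (Fin 4 → K) → Option K := fun P => pr (P.rep 0) (P.rep 1)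
  let f2 : ℙ K (Fin 4 → K) → Option K := fun P => pr (P.rep 2) (P.rep 3)
  have hne : ∀ P ∈ s, form q (P.rep 0) (P.rep 1) ≠ 0 := by
    intro P hP h0
    obtain ⟨_, ⟨l, _, hDl⟩, _⟩ := hs P hP
    rw [h0, zero_mul] at hDl
    exact hD hDl
  have hs1 : ∀ P ∈ s, sc (P.rep 0) (P.rep 1) ≠ 0 := by
    intro P hP h0
    apply hne P hP
    rw [form_eq, h0]
    simp
  have hs2 : ∀ P ∈ s, sc (P.rep 2) (P.rep 3) ≠ 0 := by
    intro P hP h0
    apply hne P hP
    rw [(hs P hP).1, form_eq, h0]
    simp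
  have hX := hC1 D hD H hH (s.image f1) (by
    intro t ht
    obtain ⟨P, hP, rfl⟩ := Finset.mem_image.mp ht
    obtain ⟨_, ⟨l, hl, hDl⟩, h3⟩ := hs P hP
    refine ⟨⟨sc (P.rep 0) (P.rep 1) ^ 2 * l, mul_ne_zero (pow_ne_zero 2 (hs1 P hP)) hl, ?_⟩,
      (oh_pr_le P.rep 0 1).trans h3⟩
    rw [hDl, form_eq]
    ring)
  have hZ := hC2 D hD H hH (s.image f2) (by
    intro t ht
    obtain ⟨P, hP, rfl⟩ := Finset.mem_image.mp ht
    obtain ⟨h1, ⟨l, hl, hDl⟩, h3⟩ := hs P hP
    refine ⟨⟨sc (P.rep 2) (P.rep 3) ^ 2 * l, mul_ne_zero (pow_ne_zero 2 (hs2 P hP)) hl, ?_⟩,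
      (oh_pr_le P.rep 2 3).trans h3⟩
    rw [hDl, h1, form_eq]
    ring)
  have hfib : s.card ≤ 4 * (s.image (fun P => (f1 P, f2 P))).card := by
    apply Finset.card_le_mul_card_image
    intro o ho
    let ρ : ℙ K (Fin 4 → K) → K := fun P => sc (P.rep 2) (P.rep 3) / sc (P.rep 0) (P.rep 1)
    have hinj : Set.InjOn ρ (s.filter (fun P => (f1 P, f2 P) = o) : Finset _) := by
      intro P hP Q hQ hPQ
      rw [Finset.mem_coe, Finset.mem_filter] at hP hQ
      obtain ⟨hP, hPo⟩ := hP
      obtain ⟨hQ, hQo⟩ := hQ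
      have h12 : (f1 P, f2 P) = (f1 Q, f2 Q) := hPo.trans hQo.symm
      obtain ⟨h1, h2⟩ := Prod.mk.inj h12
      obtain ⟨a0, a1⟩ := sc_mul h1 (hs1 Q hQ)
      obtain ⟨a2, a3⟩ := sc_mul h2 (hs2 Q hQ)
      have p1 := hs1 P hP
      have p2 := hs2 P hP
      have q1 := hs1 Q hQ
      have q2 := hs2 Q hQ
      have hlam : sc (P.rep 2) (P.rep 3) / sc (Q.rep 2) (Q.rep 3) =
          sc (P.rep 0) (P.rep 1) / sc (Q.rep 0) (Q.rep 1) := by
        have h5 : sc (P.rep 2) (P.rep 3) / sc (P.rep 0) (P.rep 1) =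
          sc (Q.rep 2) (Q.rep 3) / sc (Q.rep 0) (Q.rep 1) := hPQ
        rw [div_eq_div_iff p1 q1] at h5
        rw [div_eq_div_iff q2 q1]
        linear_combination h5
      rw [← P.mk_rep, ← Q.mk_rep, Projectivization.mk_eq_mk_iff']
      refine ⟨sc (P.rep 0) (P.rep 1) / sc (Q.rep 0) (Q.rep 1), ?_⟩
      ext i
      rw [Pi.smul_apply, smul_eq_mul]
      fin_cases i
      · exact a0.symm
      · exact a1.symm
      · rw [← hlam]; exact a2.symm
      · rw [← hlam]; exact a3.symm
    have himg : (s.filter (fun P => (f1 P, f2 P) = o)).image ρ ⊆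
        (nthRoots 4 (vo q o.1 / vo r o.2)).toFinset := by
      intro y hy
      obtain ⟨P, hP, rfl⟩ := Finset.mem_image.mp hy
      obtain ⟨hP, hPo⟩ := Finset.mem_filter.mp hP
      rw [Multiset.mem_toFinset, mem_nthRoots (by norm_num)]
      obtain ⟨h1, h2⟩ : f1 P = o.1 ∧ f2 P = o.2 := by
        rw [← hPo]; exact ⟨rfl, rfl⟩
      have h3 := (hs P hP).1
      have hn := hne P hP
      have p1 := hs1 P hP
      have p2 := hs2 P hP
      have hn2 : vo r o.2 ≠ 0 := by
        intro h0
        apply hn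
        rw [h3, form_eq, show pr (P.rep 2) (P.rep 3) = o.2 from h2, h0, zero_mul]
      rw [form_eq q, form_eq r, show pr (P.rep 0) (P.rep 1) = o.1 from h1,
        show pr (P.rep 2) (P.rep 3) = o.2 from h2] at h3
      simp only [ρ]
      rw [div_pow, div_eq_div_iff (pow_ne_zero 4 p1) hn2]
      linear_combination -h3
    calc (s.filter (fun P => (f1 P, f2 P) = o)).card
        = ((s.filter (fun P => (f1 P, f2 P) = o)).image ρ).card :=
          (Finset.card_image_of_injOn hinj).symm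
      _ ≤ (nthRoots 4 (vo q o.1 / vo r o.2)).toFinset.card := Finset.card_le_card himg
      _ ≤ (nthRoots 4 (vo q o.1 / vo r o.2)).card := Multiset.toFinset_card_le _
      _ ≤ 4 := card_nthRoots _ _
  have h2 : (s.image (fun P => (f1 P, f2 P))) ⊆ (s.image f1) ×ˢ (s.image f2) := by
    intro o ho
    obtain ⟨P, hP, rfl⟩ := Finset.mem_image.mp ho
    exact Finset.mem_product.mpr ⟨Finset.mem_image_of_mem _ hP, Finset.mem_image_of_mem _ hP⟩
  have h3 := Finset.card_le_card h2
  rw [Finset.card_product] at h3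
  have h4 : (s.card : ℝ) ≤ 4 * (((s.image f1).card : ℝ) * (s.image f2).card) := by
    have : s.card ≤ 4 * ((s.image f1).card * (s.image f2).card) :=
      hfib.trans (Nat.mul_le_mul_left 4 h3)
    exact_mod_cast this
  calc (s.card : ℝ) ≤ _ := h4
    _ ≤ 4 * ((C1 * Real.exp (η / 2 * H)) * (C2 * Real.exp (η / 2 * H))) := by gcongr
    _ = 4 * (C1 * C2) * (Real.exp (η / 2 * H) * Real.exp (η / 2 * H)) := by ring
    _ = 4 * (C1 * C2) * Real.exp (η * H) := by rw [← Real.exp_add]; ring_nf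

end

end Pool.Agent.K3Q
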