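import Pool.Agent.K3Q.Forms

/-!
Counting rational points of bounded height on the quartic surfaces `F(x, y) = G(z, w)`.
-/

set_option autoImplicit false

namespace Pool.Agent.K3Q

open Height Polynomial Pool.Agent.K3H
open scoped LinearAlgebra.Projectivization

variable {K : Type*} [Field K] [NumberField K]

/-- points over one square class, and points whose twist has a point of small height -/
theorem forms_main (q r : Fin 5 → K) (hq : disc q ≠ 0) (hr : disc r ≠ 0) (θ ε : ℝ) (hθ : 0 ≤ θ)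
    (hε : 0 < ε) :
    ∃ C' : ℝ, 0 ≤ C' ∧ ∀ B : ℝ, 1 ≤ B →
      (∀ D : K, D ≠ 0 → ∀ s : Finset (ℙ K (Fin 4 → K)),
        (∀ P ∈ s, form q (P.rep 0) (P.rep 1) = form r (P.rep 2) (P.rep 3) ∧
          mulHeight P.rep ≤ B ∧ ∃ v : K, v ≠ 0 ∧ form q (P.rep 0) (P.rep 1) * v ^ 2 = D) →
        (s.card : ℝ) ≤ C' * B ^ ε) ∧
      (∀ s : Finset (ℙ K (Fin 4 → K)),
        (∀ P ∈ s, form q (P.rep 0) (P.rep 1) = form r (P.rep 2) (P.rep 3) ∧
          form q (P.rep 0) (P.rep 1) ≠ 0 ∧ mulHeight P.rep ≤ B ∧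
          ∃ t v : K, v ≠ 0 ∧ mulHeight₁ t ≤ B ^ θ ∧
            (form q (P.rep 0) (P.rep 1) * v ^ 2 = form q t 1 ∨
              form q (P.rep 0) (P.rep 1) * v ^ 2 = form r t 1)) →
        (s.card : ℝ) ≤ C' * B ^ (2 * θ + ε)) := by
  classical
  obtain ⟨C2, hC20, hC2⟩ := card_nset (K := K)
  obtain ⟨C4, hC40, hC4⟩ := forms_class q r hq hr ε hε
  refine ⟨C4 + 2 * C2 * C4, by positivity, ?_⟩
  intro B hB
  set H : ℝ := Real.log B with hH
  have hH0 : 0 ≤ H := Real.log_nonneg hB
  have hBexp : ∀ η : ℝ, Real.exp (η * H) = B ^ η := by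
    intro η
    rw [Real.rpow_def_of_pos (by linarith), mul_comm]
  have hBε : 0 ≤ B ^ ε := by positivity
  have hone : ∀ D : K, D ≠ 0 → ∀ s : Finset (ℙ K (Fin 4 → K)),
      (∀ P ∈ s, form q (P.rep 0) (P.rep 1) = form r (P.rep 2) (P.rep 3) ∧
        mulHeight P.rep ≤ B ∧ ∃ v : K, v ≠ 0 ∧ form q (P.rep 0) (P.rep 1) * v ^ 2 = D) →
      (s.card : ℝ) ≤ C4 * B ^ ε := by
    intro D hD s hs
    have := hC4 D hD H hH0 s (by
      intro P hP
      obtain ⟨h1, h2, v, hv, hvD⟩ := hs P hP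
      refine ⟨h1, ⟨v, hv, hvD.symm⟩, ?_⟩
      rw [logHeight_eq_log_mulHeight]
      exact Real.log_le_log (mulHeight_pos _) h2)
    rwa [hBexp] at this
  refine ⟨fun D hD s hs => (hone D hD s hs).trans ?_, fun s hs => ?_⟩
  · have : 0 ≤ 2 * C2 * C4 * B ^ ε := by positivity
    nlinarith
  let Z : Finset K := nset K (θ * H)
  have hZ : (Z.card : ℝ) ≤ C2 * B ^ (2 * θ) := by
    have := hC2 (θ * H) (by positivity)
    rw [← mul_assoc, hBexp] at this
    exact this
  let V : ℙ K (Fin 4 → K) → K → Prop := fun P D =>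
    D ≠ 0 ∧ ∃ v : K, v ≠ 0 ∧ form q (P.rep 0) (P.rep 1) * v ^ 2 = D
  have hcov : s ⊆ (Z.biUnion (fun t => s.filter (fun P => V P (form q t 1)))) ∪
      (Z.biUnion (fun t => s.filter (fun P => V P (form r t 1)))) := by
    intro P hP
    obtain ⟨h1, h2, h3, t, v, hv, hle, h4⟩ := hs P hP
    have hmem : t ∈ Z := by
      rw [mem_nset, logHeight₁_eq_log_mulHeight₁]
      have h5 := one_le_mulHeight₁ t
      have := Real.log_le_log (by linarith) hle
      rwa [Real.log_rpow (by linarith)] at this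
    rw [Finset.mem_union, Finset.mem_biUnion, Finset.mem_biUnion]
    rcases h4 with h4 | h4
    · left
      exact ⟨t, hmem, Finset.mem_filter.mpr
        ⟨hP, by rw [← h4]; exact mul_ne_zero h2 (pow_ne_zero 2 hv), v, hv, h4⟩⟩
    · right
      exact ⟨t, hmem, Finset.mem_filter.mpr
        ⟨hP, by rw [← h4]; exact mul_ne_zero h2 (pow_ne_zero 2 hv), v, hv, h4⟩⟩
  have htwo : ∀ p : Fin 5 → K,
      ((Z.biUnion (fun t => s.filter (fun P => V P (form p t 1)))).card : ℝ) ≤
      C2 * C4 * B ^ (2 * θ + ε) := by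
    intro p
    have h1 : ((Z.biUnion (fun t => s.filter (fun P => V P (form p t 1)))).card : ℝ) ≤
        ∑ t ∈ Z, ((s.filter (fun P => V P (form p t 1))).card : ℝ) := by
      have := Finset.card_biUnion_le (s := Z) (t := fun t => s.filter (fun P => V P (form p t 1)))
      exact_mod_cast this
    have h2 : ∀ t ∈ Z, ((s.filter (fun P => V P (form p t 1))).card : ℝ) ≤ C4 * B ^ ε := by
      intro t _
      by_cases ht : form p t 1 = 0
      · have : s.filter (fun P => V P (form p t 1)) = ∅ := by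
          apply Finset.filter_eq_empty_iff.mpr
          intro P _ hE
          exact hE.1 ht
        rw [this, Finset.card_empty]
        push_cast
        positivity
      · apply hone (form p t 1) ht
        intro P hP
        obtain ⟨hp1, hp2⟩ := Finset.mem_filter.mp hP
        obtain ⟨g1, g2, g3, _⟩ := hs P hp1
        exact ⟨g1, g3, hp2.2⟩
    calc _ ≤ _ := h1
      _ ≤ ∑ t ∈ Z, C4 * B ^ ε := Finset.sum_le_sum h2
      _ = (Z.card : ℝ) * (C4 * B ^ ε) := by rw [Finset.sum_const, nsmul_eq_mul]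
      _ ≤ (C2 * B ^ (2 * θ)) * (C4 * B ^ ε) := mul_le_mul_of_nonneg_right hZ (by positivity)
      _ = C2 * C4 * B ^ (2 * θ + ε) := by rw [Real.rpow_add (by linarith)]; ring
  have h1 := (Finset.card_le_card hcov).trans (Finset.card_union_le _ _)
  have h2 := htwo q
  have h3 := htwo r
  have h4 : 0 ≤ C4 * B ^ (2 * θ + ε) := by positivity
  calc (s.card : ℝ) ≤
        ((Z.biUnion (fun t => s.filter (fun P => V P (form q t 1)))).card : ℝ) +
        ((Z.biUnion (fun t => s.filter (fun P => V P (form r t 1)))).card : ℝ) := by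
        exact_mod_cast h1
    _ ≤ _ := add_le_add h2 h3
    _ ≤ (C4 + 2 * C2 * C4) * B ^ (2 * θ + ε) := by nlinarith

end Pool.Agent.K3Q
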