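import Pool.Agent.K3Q.XCount

/-!
Counting rational points of `w^2 = F(x) G(z)`, `F`, `G` separable of degree 3 or 4, over given
square classes of `F(x)`.
-/

set_option autoImplicit false

namespace Pool.Agent.K3Q

open Height Polynomial Pool.Agent.K3H

variable {K : Type*} [Field K] [NumberField K] [DecidableEq K]

/-- the points over one square class -/
theorem class_count (F G : K[X]) (hF : F.Separable) (hFd : F.natDegree = 3 ∨ F.natDegree = 4)
    (hG : G.Separable) (hGd : G.natDegree = 3 ∨ G.natDegree = 4) (η : ℝ) (hη : 0 < η) :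
    ∃ Cη : ℝ, 0 ≤ Cη ∧ ∀ D : K, D ≠ 0 → ∀ H : ℝ, 0 ≤ H → ∀ s : Finset (K × K × K),
      (∀ p ∈ s, p.2.2 ^ 2 = F.eval p.1 * G.eval p.2.1 ∧ p.2.2 ≠ 0 ∧
        (∃ l : K, l ≠ 0 ∧ D = F.eval p.1 * l ^ 2) ∧
        logHeight₁ p.1 ≤ H ∧ logHeight₁ p.2.1 ≤ H) →
      (s.card : ℝ) ≤ Cη * Real.exp (η * H) := by
  classical
  obtain ⟨C1, hC10, hC1⟩ := xcount F hF hFd (η / 2) (by positivity)
  obtain ⟨C2, hC20, hC2⟩ := xcount G hG hGd (η / 2) (by positivity)
  refine ⟨2 * (C1 * C2), by positivity, ?_⟩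
  intro D hD H hH s hs
  have hX := hC1 D hD H hH (s.image (fun p => p.1)) (by
    intro t ht
    obtain ⟨p, hp, rfl⟩ := Finset.mem_image.mp ht
    obtain ⟨_, _, h3, h4, _⟩ := hs p hp
    exact ⟨h3, h4⟩)
  have hZ := hC2 D hD H hH (s.image (fun p => p.2.1)) (by
    intro t ht
    obtain ⟨p, hp, rfl⟩ := Finset.mem_image.mp ht
    obtain ⟨h1, h2, ⟨l, hl, hDl⟩, _, h5⟩ := hs p hp
    refine ⟨⟨F.eval p.1 * l / p.2.2, ?_, ?_⟩, h5⟩
    · have hF0 : F.eval p.1 ≠ 0 := by
        intro h0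
        rw [h0, zero_mul] at hDl
        exact hD hDl
      exact div_ne_zero (mul_ne_zero hF0 hl) h2
    · have hG0 : G.eval p.2.1 ≠ 0 := by
        intro h0
        rw [h0, mul_zero] at h1
        exact h2 (pow_eq_zero_iff two_ne_zero |>.mp h1)
      have hF0 : F.eval p.1 ≠ 0 := by
        intro h0
        rw [h0, zero_mul] at hDl
        exact hD hDl
      rw [div_pow, h1, hDl]
      field_simp)
  have h1 := card_triples' (fun x => F.eval x) (fun x => G.eval x) s (fun p hp => (hs p hp).1)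
  have h2 : (s.image (fun p : K × K × K => (p.1, p.2.1))) ⊆
      (s.image (fun p => p.1)) ×ˢ (s.image (fun p => p.2.1)) := by
    intro q hq
    obtain ⟨p, hp, rfl⟩ := Finset.mem_image.mp hq
    exact Finset.mem_product.mpr ⟨Finset.mem_image_of_mem _ hp, Finset.mem_image_of_mem _ hp⟩
  have h3 := Finset.card_le_card h2
  rw [Finset.card_product] at h3
  have h4 : (s.card : ℝ) ≤
      2 * (((s.image (fun p => p.1)).card : ℝ) * (s.image (fun p => p.2.1)).card) := by
    have : s.card ≤ 2 * ((s.image (fun p => p.1)).card * (s.image (fun p => p.2.1)).card) :=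
      h1.trans (Nat.mul_le_mul_left 2 h3)
    exact_mod_cast this
  calc (s.card : ℝ) ≤ _ := h4
    _ ≤ 2 * ((C1 * Real.exp (η / 2 * H)) * (C2 * Real.exp (η / 2 * H))) := by gcongr
    _ = 2 * (C1 * C2) * (Real.exp (η / 2 * H) * Real.exp (η / 2 * H)) := by ring
    _ = 2 * (C1 * C2) * Real.exp (η * H) := by rw [← Real.exp_add]; ring_nf

omit [DecidableEq K] in
lemma heights_le {B : ℝ} (hB : 1 ≤ B) {x z : K} (h : mulHeight₁ x * mulHeight₁ z ≤ B) :
    logHeight₁ x ≤ Real.log B ∧ logHeight₁ z ≤ Real.log B := by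
  have h1 := one_le_mulHeight₁ x
  have h2 := one_le_mulHeight₁ z
  rw [logHeight₁_eq_log_mulHeight₁, logHeight₁_eq_log_mulHeight₁]
  have h4 := Real.log_nonneg h1
  have h5 := Real.log_nonneg h2
  have h6 : Real.log (mulHeight₁ x) + Real.log (mulHeight₁ z) ≤ Real.log B := by
    rw [← Real.log_mul (by linarith) (by linarith)]
    exact Real.log_le_log (by positivity) h
  constructor <;> linarith

/-- points over one class, and points whose twist has a point of small height -/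
theorem main_count (F G : K[X]) (hF : F.Separable) (hFd : F.natDegree = 3 ∨ F.natDegree = 4)
    (hG : G.Separable) (hGd : G.natDegree = 3 ∨ G.natDegree = 4) (θ ε : ℝ) (hθ : 0 ≤ θ)
    (hε : 0 < ε) :
    ∃ C' : ℝ, 0 ≤ C' ∧ ∀ B : ℝ, 1 ≤ B →
      (∀ D : K, D ≠ 0 → ∀ s : Finset (K × K × K),
        (∀ p ∈ s, p.2.2 ^ 2 = F.eval p.1 * G.eval p.2.1 ∧ p.2.2 ≠ 0 ∧
          mulHeight₁ p.1 * mulHeight₁ p.2.1 ≤ B ∧ ∃ y : K, y ≠ 0 ∧ F.eval p.1 * y ^ 2 = D) →
        (s.card : ℝ) ≤ C' * B ^ ε) ∧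
      (∀ s : Finset (K × K × K),
        (∀ p ∈ s, p.2.2 ^ 2 = F.eval p.1 * G.eval p.2.1 ∧ p.2.2 ≠ 0 ∧
          mulHeight₁ p.1 * mulHeight₁ p.2.1 ≤ B ∧
          ∃ t y : K, y ≠ 0 ∧ mulHeight₁ t ≤ B ^ θ ∧
            (F.eval p.1 * y ^ 2 = F.eval t ∨ F.eval p.1 * y ^ 2 = G.eval t)) →
        (s.card : ℝ) ≤ C' * B ^ (2 * θ + ε)) := by
  classical
  obtain ⟨C2, hC20, hC2⟩ := card_nset (K := K)
  obtain ⟨C4, hC40, hC4⟩ := class_count F G hF hFd hG hGd ε hε
  refine ⟨C4 + 2 * C2 * C4, by positivity, ?_⟩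
  intro B hB
  set H : ℝ := Real.log B with hH
  have hH0 : 0 ≤ H := Real.log_nonneg hB
  have hBexp : ∀ η : ℝ, Real.exp (η * H) = B ^ η := by
    intro η
    rw [Real.rpow_def_of_pos (by linarith), mul_comm]
  have hBε : 0 ≤ B ^ ε := by positivity
  have hone : ∀ D : K, D ≠ 0 → ∀ s : Finset (K × K × K),
      (∀ p ∈ s, p.2.2 ^ 2 = F.eval p.1 * G.eval p.2.1 ∧ p.2.2 ≠ 0 ∧
        mulHeight₁ p.1 * mulHeight₁ p.2.1 ≤ B ∧ ∃ y : K, y ≠ 0 ∧ F.eval p.1 * y ^ 2 = D) →
      (s.card : ℝ) ≤ C4 * B ^ ε := by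
    intro D hD s hs
    have := hC4 D hD H hH0 s (by
      intro p hp
      obtain ⟨h1, h2, h3, y, hy, hyD⟩ := hs p hp
      exact ⟨h1, h2, ⟨y, hy, hyD.symm⟩, heights_le hB h3⟩)
    rwa [hBexp] at this
  refine ⟨fun D hD s hs => (hone D hD s hs).trans ?_, fun s hs => ?_⟩
  · have : 0 ≤ 2 * C2 * C4 * B ^ ε := by positivity
    nlinarith
  let Z : Finset K := nset K (θ * H)
  have hZ : (Z.card : ℝ) ≤ C2 * B ^ (2 * θ) := by
    have := hC2 (θ * H) (by positivity)
    rw [← mul_assoc, hBexp] at this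
    exact this
  let V : K × K × K → K → Prop := fun p D => D ≠ 0 ∧ ∃ y : K, y ≠ 0 ∧ F.eval p.1 * y ^ 2 = D
  have hcov : s ⊆ (Z.biUnion (fun t => s.filter (fun p => V p (F.eval t)))) ∪
      (Z.biUnion (fun t => s.filter (fun p => V p (G.eval t)))) := by
    intro p hp
    obtain ⟨h1, h2, h3, t, y, hy, hle, h4⟩ := hs p hp
    have hne : F.eval p.1 * G.eval p.2.1 ≠ 0 := by
      rw [← h1]
      exact pow_ne_zero 2 h2
    have hfx : F.eval p.1 ≠ 0 := left_ne_zero_of_mul hne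
    have hmem : t ∈ Z := by
      rw [mem_nset, logHeight₁_eq_log_mulHeight₁]
      have h5 := one_le_mulHeight₁ t
      have := Real.log_le_log (by linarith) hle
      rwa [Real.log_rpow (by linarith)] at this
    rw [Finset.mem_union, Finset.mem_biUnion, Finset.mem_biUnion]
    rcases h4 with h4 | h4
    · left
      exact ⟨t, hmem, Finset.mem_filter.mpr
        ⟨hp, by rw [← h4]; exact mul_ne_zero hfx (pow_ne_zero 2 hy), y, hy, h4⟩⟩
    · right
      exact ⟨t, hmem, Finset.mem_filter.mpr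
        ⟨hp, by rw [← h4]; exact mul_ne_zero hfx (pow_ne_zero 2 hy), y, hy, h4⟩⟩
  have htwo : ∀ P : K[X], ((Z.biUnion (fun t => s.filter (fun p => V p (P.eval t)))).card : ℝ) ≤
      C2 * C4 * B ^ (2 * θ + ε) := by
    intro P
    have h1 : ((Z.biUnion (fun t => s.filter (fun p => V p (P.eval t)))).card : ℝ) ≤
        ∑ t ∈ Z, ((s.filter (fun p => V p (P.eval t))).card : ℝ) := by
      have := Finset.card_biUnion_le (s := Z) (t := fun t => s.filter (fun p => V p (P.eval t)))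
      exact_mod_cast this
    have h2 : ∀ t ∈ Z, ((s.filter (fun p => V p (P.eval t))).card : ℝ) ≤ C4 * B ^ ε := by
      intro t _
      by_cases ht : P.eval t = 0
      · have : s.filter (fun p => V p (P.eval t)) = ∅ := by
          apply Finset.filter_eq_empty_iff.mpr
          intro p _ hE
          exact hE.1 ht
        rw [this, Finset.card_empty]
        push_cast
        positivity
      · apply hone (P.eval t) ht
        intro p hp
        obtain ⟨hp1, hp2⟩ := Finset.mem_filter.mp hp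
        obtain ⟨g1, g2, g3, _⟩ := hs p hp1
        exact ⟨g1, g2, g3, hp2.2⟩
    calc _ ≤ _ := h1
      _ ≤ ∑ t ∈ Z, C4 * B ^ ε := Finset.sum_le_sum h2
      _ = (Z.card : ℝ) * (C4 * B ^ ε) := by rw [Finset.sum_const, nsmul_eq_mul]
      _ ≤ (C2 * B ^ (2 * θ)) * (C4 * B ^ ε) := mul_le_mul_of_nonneg_right hZ (by positivity)
      _ = C2 * C4 * B ^ (2 * θ + ε) := by rw [Real.rpow_add (by linarith)]; ring
  have h1 := (Finset.card_le_card hcov).trans (Finset.card_union_le _ _)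
  have h2 := htwo F
  have h3 := htwo G
  have h4 : 0 ≤ C4 * B ^ (2 * θ + ε) := by positivity
  calc (s.card : ℝ) ≤ ((Z.biUnion (fun t => s.filter (fun p => V p (F.eval t)))).card : ℝ) +
        ((Z.biUnion (fun t => s.filter (fun p => V p (G.eval t)))).card : ℝ) := by
        exact_mod_cast h1
    _ ≤ _ := add_le_add h2 h3
    _ ≤ (C4 + 2 * C2 * C4) * B ^ (2 * θ + ε) := by nlinarith

end Pool.Agent.K3Q
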