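import Pool.Agent.K3Q.Disc

/-!
Points of small height on the twists `D y^2 = F(t)`, `F` separable of degree 3 or 4.
-/

set_option autoImplicit false

namespace Pool.Agent.K3Q

open WeierstrassCurve WeierstrassCurve.Affine Height Polynomial Pool.Agent.K3H

variable {K : Type*} [Field K]

lemma expand4 (F : K[X]) (h : F.natDegree ≤ 4) :
    F = C (F.coeff 4) * X ^ 4 + C (F.coeff 3) * X ^ 3 + C (F.coeff 2) * X ^ 2 +
      C (F.coeff 1) * X + C (F.coeff 0) := by
  conv_lhs => rw [F.as_sum_range' 5 (by omega)]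
  simp only [Finset.sum_range_succ, Finset.sum_range_zero, ← C_mul_X_pow_eq_monomial]
  ring

/-- the covariant of degree 4 as a polynomial -/
noncomputable def G4 (F : K[X]) : K[X] :=
  3 * derivative F ^ 2 - 4 * F * derivative (derivative F)

lemma eval_G4 (F : K[X]) (h : F.natDegree ≤ 4) (t : K) :
    (G4 F).eval t = g4 (F.coeff 4) (F.coeff 3) (F.coeff 2) (F.coeff 1) (F.coeff 0) t := by
  rw [g4_eq, G4, ← eval_qe F h]
  have h1 : (derivative F).eval t =
      4 * F.coeff 4 * t ^ 3 + 3 * F.coeff 3 * t ^ 2 + 2 * F.coeff 2 * t + F.coeff 1 := by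
    conv_lhs => rw [expand4 F h]
    simp
    ring
  have h2 : (derivative (derivative F)).eval t =
      12 * F.coeff 4 * t ^ 2 + 6 * F.coeff 3 * t + 2 * F.coeff 2 := by
    conv_lhs => rw [expand4 F h]
    simp
    ring
  simp only [eval_sub, eval_mul, eval_pow, eval_ofNat, h1, h2]

lemma G4_sub_ne [CharZero K] (F : K[X]) (hF : F.Separable) (hd : 0 < F.natDegree) (x : K) :
    G4 F - C x * F ≠ 0 := by
  intro h0
  have hdvd : F ∣ C (3 : K) * derivative F ^ 2 := by
    refine ⟨4 * derivative (derivative F) + C x, ?_⟩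
    rw [G4] at h0
    have h3 : (C (3 : K) : K[X]) = 3 := map_ofNat C 3
    rw [h3]
    linear_combination h0
  have hcop : IsCoprime F (derivative F ^ 2) := IsCoprime.pow_right hF
  have h3u : IsUnit (C (3 : K) : K[X]) := by
    rw [isUnit_C]
    exact isUnit_iff_ne_zero.mpr (by norm_num)
  have h1 : F ∣ derivative F ^ 2 := (IsUnit.dvd_mul_left h3u).mp hdvd
  have h2 : IsUnit F := (hcop.isUnit_of_dvd' (dvd_refl F) h1)
  have := natDegree_eq_zero_of_isUnit h2
  omega

lemma natDegree_G4_sub (F : K[X]) (h : F.natDegree ≤ 4) (x : K) :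
    (G4 F - C x * F).natDegree ≤ 6 := by
  have h1 : (derivative F).natDegree ≤ 3 := (natDegree_derivative_le F).trans (by omega)
  have h2 : (derivative (derivative F)).natDegree ≤ 2 :=
    (natDegree_derivative_le _).trans (by omega)
  have e3 : (3 : K[X]) = C (3 : K) := (map_ofNat C 3).symm
  have e4 : (4 : K[X]) = C (4 : K) := (map_ofNat C 4).symm
  refine (natDegree_sub_le _ _).trans (max_le ?_ ?_)
  · rw [G4]
    refine (natDegree_sub_le _ _).trans (max_le ?_ ?_)
    · rw [e3]
      refine (natDegree_C_mul_le _ _).trans ?_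
      refine (natDegree_pow_le).trans ?_
      omega
    · rw [e4, mul_assoc]
      refine (natDegree_C_mul_le _ _).trans ?_
      refine (natDegree_mul_le).trans ?_
      omega
  · refine (natDegree_C_mul_le _ _).trans ?_
    omega

section

variable [NumberField K]

/-- crude bound for the height of a value of a polynomial -/
lemma height_eval (P : K[X]) : ∃ c : ℝ, 0 ≤ c ∧ ∀ t : K,
    logHeight₁ (P.eval t) ≤ c * (1 + logHeight₁ t) := by
  induction P using Polynomial.induction_on' with
  | add p q hp hq =>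
    obtain ⟨c1, h1, h1'⟩ := hp
    obtain ⟨c2, h2, h2'⟩ := hq
    have hw : 0 ≤ (totalWeight K : ℝ) * Real.log 2 := by positivity
    refine ⟨(totalWeight K : ℝ) * Real.log 2 + c1 + c2, by positivity, fun t => ?_⟩
    rw [eval_add]
    have h3 := logHeight₁_add_le (p.eval t) (q.eval t)
    have h4 := h1' t
    have h5 := h2' t
    have h6 := zero_le_logHeight₁ t
    nlinarith [mul_nonneg hw h6]
  | monomial n a =>
    refine ⟨logHeight₁ a + n, by have := zero_le_logHeight₁ a; positivity, fun t => ?_⟩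
    rw [eval_monomial]
    have h1 := logHeight₁_mul_le a (t ^ n)
    rw [logHeight₁_pow] at h1
    have h2 := zero_le_logHeight₁ a
    have h3 := zero_le_logHeight₁ t
    have h4 : (0 : ℝ) ≤ n := Nat.cast_nonneg n
    nlinarith [mul_nonneg h2 h3]

lemma height_quot (P Q : K[X]) : ∃ c : ℝ, 0 < c ∧ ∀ t : K,
    logHeight₁ (P.eval t / Q.eval t) ≤ c * (1 + logHeight₁ t) := by
  obtain ⟨c1, h1, h1'⟩ := height_eval P
  obtain ⟨c2, h2, h2'⟩ := height_eval Q
  refine ⟨c1 + c2 + 1, by positivity, fun t => ?_⟩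
  rw [div_eq_mul_inv]
  have h3 := logHeight₁_mul_le (P.eval t) (Q.eval t)⁻¹
  rw [logHeight₁_inv] at h3
  have h4 := h1' t
  have h5 := h2' t
  have h6 := zero_le_logHeight₁ t
  nlinarith

variable [DecidableEq K]

/-- points of height at most `exp H` on any twist `D y^2 = F(t)` number `O(exp (η H))` -/
theorem xcount (F : K[X]) (hF : F.Separable) (hd : F.natDegree = 3 ∨ F.natDegree = 4)
    (η : ℝ) (hη : 0 < η) : ∃ C' : ℝ, 0 ≤ C' ∧ ∀ D : K, D ≠ 0 → ∀ H : ℝ, 0 ≤ H →
      ∀ s : Finset K, (∀ t ∈ s, (∃ l : K, l ≠ 0 ∧ D = F.eval t * l ^ 2) ∧ logHeight₁ t ≤ H) →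
      (s.card : ℝ) ≤ C' * Real.exp (η * H) := by
  classical
  have h4 : F.natDegree ≤ 4 := by omega
  set A : K := -48 * pI F with hA
  set B : K := -64 * pJ F with hB
  have hdisc : 4 * A ^ 3 + 27 * B ^ 2 ≠ 0 := by
    have h1 : 4 * A ^ 3 + 27 * B ^ 2 = -110592 * (4 * pI F ^ 3 - pJ F ^ 2) := by
      rw [hA, hB]; ring
    rw [h1]
    exact mul_ne_zero (by norm_num) (disc_ne F hF hd)
  obtain ⟨c, hc, hcX⟩ := height_quot (G4 F) F
  obtain ⟨C1, hC10, hC1⟩ := count_points hdisc (η / c) (by positivity)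
  refine ⟨6 * (C1 * Real.exp η), by positivity, ?_⟩
  intro D hD H hH s hs
  have hE : (3 : K) * D ≠ 0 := mul_ne_zero (by norm_num) hD
  let PP : Finset (tw A B (3 * D)).Point :=
    (finite_ht_le hE (tw A B (3 * D)) (c * (1 + H))).toFinset
  have hPP := hC1 (3 * D) hE (c * (1 + H)) (by positivity) PP
    (fun P hP => by simpa [PP] using hP)
  have hPP' : (PP.card : ℝ) ≤ C1 * Real.exp η * Real.exp (η * H) := by
    refine hPP.trans (le_of_eq ?_)
    rw [mul_assoc, ← Real.exp_add]
    congr 2
    field_simp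
  let x : K → K := fun t => (G4 F).eval t / F.eval t
  have hsub : s.image x ⊆ PP.image (fun P => (xi (3 * D) P).getD 0) := by
    intro y hy
    obtain ⟨t, ht, rfl⟩ := Finset.mem_image.mp hy
    obtain ⟨⟨l, hl, hDl⟩, hth⟩ := hs t ht
    have hFt : F.eval t ≠ 0 := by
      intro h0
      rw [h0, zero_mul] at hDl
      exact hD hDl
    set g := g6 (F.coeff 4) (F.coeff 3) (F.coeff 2) (F.coeff 1) (F.coeff 0) t with hg
    have hsyz : 27 * g ^ 2 = (G4 F).eval t ^ 3 - 48 * pI F * (G4 F).eval t * F.eval t ^ 2 -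
        64 * pJ F * F.eval t ^ 3 := by
      rw [eval_G4 F h4, eval_qe F h4]
      exact syz _ _ _ _ _ t
    have hn : (tw A B (3 * D)).Nonsingular (3 * D * x t)
        ((3 * D) ^ 2 * (3 * g / (F.eval t ^ 2 * l))) := by
      rw [sw_ns_iff (tw_disc hdisc hE)]
      have h5 : (3 * D * x t) ^ 3 + A * (3 * D) ^ 2 * (3 * D * x t) + B * (3 * D) ^ 3 =
          (3 * D) ^ 3 * (27 * g ^ 2) / F.eval t ^ 3 := by
        rw [hsyz]
        simp only [x, hA, hB]
        field_simp
        ring
      rw [h5]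
      rw [hDl]
      field_simp
      ring
    have hxi : xi (3 * D) (Point.some _ _ hn) = some (x t) := by
      rw [xi_some]
      congr 1
      field_simp
    rw [Finset.mem_image]
    refine ⟨Point.some _ _ hn, ?_, ?_⟩
    · simp only [PP, Set.Finite.mem_toFinset, Set.mem_ofPred_eq]
      rw [ht_eq_oh, hxi, oh]
      refine (hcX t).trans ?_
      exact mul_le_mul_of_nonneg_left (by linarith) hc.le
    · simp only [hxi, Option.getD_some]
  have hfib : s.card ≤ 6 * (s.image x).card := by
    apply Finset.card_le_mul_card_image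
    intro y hy
    have hne := G4_sub_ne F hF (by omega) y
    calc (s.filter (fun t => x t = y)).card ≤ (G4 F - C y * F).roots.toFinset.card := by
          apply Finset.card_le_card
          intro t ht
          obtain ⟨ht1, ht2⟩ := Finset.mem_filter.mp ht
          obtain ⟨⟨l, hl, hDl⟩, hth⟩ := hs t ht1
          have hFt : F.eval t ≠ 0 := by
            intro h0
            rw [h0, zero_mul] at hDl
            exact hD hDl
          rw [Multiset.mem_toFinset, mem_roots hne, IsRoot.def, eval_sub, eval_mul, eval_C]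
          have h6 : (G4 F).eval t / F.eval t = y := ht2
          rw [div_eq_iff hFt] at h6
          rw [h6, sub_self]
      _ ≤ (G4 F - C y * F).roots.card := Multiset.toFinset_card_le _
      _ ≤ (G4 F - C y * F).natDegree := card_roots' _
      _ ≤ 6 := natDegree_G4_sub F h4 y
  have h7 := (Finset.card_le_card hsub).trans Finset.card_image_le
  have h8 : (s.card : ℝ) ≤ 6 * (PP.card : ℝ) := by
    have : s.card ≤ 6 * PP.card := hfib.trans (Nat.mul_le_mul_left 6 h7)
    exact_mod_cast this
  calc (s.card : ℝ) ≤ 6 * (PP.card : ℝ) := h8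
    _ ≤ 6 * (C1 * Real.exp η * Real.exp (η * H)) := by gcongr
    _ = 6 * (C1 * Real.exp η) * Real.exp (η * H) := by ring

end

end Pool.Agent.K3Q
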